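import Pool.Agent.Q294.AR.Klein

/-!
# Small representations of alternating groups have vectors fixed by large alternating subgroups
-/

set_option autoImplicit false

namespace Pool.Agent.Q294.AR

open Module Equiv Equiv.Perm

/-- the image of a Klein four-group under a homomorphism -/
def KT.map {G H : Type*} [Group G] [Group H] (f : G →* H) (k : KT G) : KT H where
  a := f k.a
  b := f k.b
  r := f k.r
  haa := by rw [← map_mul, k.haa, map_one]
  hra := by rw [← map_inv, ← map_mul, ← map_mul, k.hra]
  hrb := by rw [← map_inv, ← map_mul, ← map_mul, k.hrb, map_mul]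

theorem KT.map_a {G H : Type*} [Group G] [Group H] (f : G →* H) (k : KT G) :
    (k.map f).a = f k.a := rfl

/-- the Klein four-group in the alternating group of degree four -/
def k4 : KT (alternatingGroup (Fin 4)) where
  a := ⟨swap 0 1 * swap 2 3, by rw [mem_alternatingGroup]; decide⟩
  b := ⟨swap 0 2 * swap 1 3, by rw [mem_alternatingGroup]; decide⟩
  r := ⟨swap 1 2 * swap 2 3, by rw [mem_alternatingGroup]; decide⟩
  haa := by decide
  hra := by decide
  hrb := by decide

theorem k4_a : ((k4.a : alternatingGroup (Fin 4)) : Perm (Fin 4)) = swap 0 1 * swap 2 3 := rfl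

variable {n : ℕ}

/-- permutations of four points as permutations of `Fin n` -/
noncomputable def vE (s : Fin 4 ↪ Fin n) : Perm (Fin 4) →* Perm (Fin n) := viaEmbeddingHom s

theorem vE_apply (s : Fin 4 ↪ Fin n) (e : Perm (Fin 4)) (i : Fin 4) : vE s e (s i) = s (e i) :=
  viaEmbedding_apply e s i

theorem vE_apply_of (s : Fin 4 ↪ Fin n) (e : Perm (Fin 4)) {x : Fin n} (hx : ∀ i, s i ≠ x) :
    vE s e x = x := viaEmbedding_apply_of_notMem e s x (by rintro ⟨i, hi⟩; exact hx i hi)

theorem vE_swap (s : Fin 4 ↪ Fin n) (i j : Fin 4) : vE s (swap i j) = swap (s i) (s j) := by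
  ext x : 1
  by_cases hx : ∃ k, s k = x
  · obtain ⟨k, rfl⟩ := hx
    rw [vE_apply, swap_apply_def, swap_apply_def]
    by_cases h1 : k = i
    · subst h1; simp
    · by_cases h2 : k = j
      · subst h2; simp [h1]
      · simp [h1, h2]
  · push Not at hx
    rw [vE_apply_of s _ hx, swap_apply_of_ne_of_ne (hx i).symm (hx j).symm]

theorem sign_vE (s : Fin 4 ↪ Fin n) (e : Perm (Fin 4)) : sign (vE s e) = sign e := by
  induction e using swap_induction_on with
  | one => rw [map_one, Perm.sign_one, Perm.sign_one]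
  | swap_mul f i j hij ih =>
    rw [map_mul, Perm.sign_mul, Perm.sign_mul, ih, vE_swap, sign_swap hij,
      sign_swap (fun h => hij (s.injective h))]

/-- even permutations of four points as even permutations of `Fin n` -/
noncomputable def vA (s : Fin 4 ↪ Fin n) : alternatingGroup (Fin 4) →* alternatingGroup (Fin n) :=
  ((vE s).comp (alternatingGroup (Fin 4)).subtype).codRestrict (alternatingGroup (Fin n)) (by
    intro e
    rw [mem_alternatingGroup, MonoidHom.comp_apply, sign_vE]
    exact mem_alternatingGroup.1 e.2)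

theorem vA_coe (s : Fin 4 ↪ Fin n) (e : alternatingGroup (Fin 4)) :
    ((vA s e : alternatingGroup (Fin n)) : Perm (Fin n)) = vE s e := rfl

/-- the ranges of `s` and `t` are disjoint -/
def Dj (s t : Fin 4 ↪ Fin n) : Prop := ∀ i j, s i ≠ t j

theorem vA_commute {s t : Fin 4 ↪ Fin n} (h : Dj s t) (e f : alternatingGroup (Fin 4)) :
    Commute (vA s e) (vA t f) := by
  have h1 : Perm.Disjoint (vE s e) (vE t f) := by
    intro x
    by_cases hx : ∃ i, s i = x
    · obtain ⟨i, rfl⟩ := hx
      exact Or.inr (vE_apply_of t _ fun j => (h i j).symm)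
    · push Not at hx
      exact Or.inl (vE_apply_of s _ hx)
  exact Subtype.ext h1.commute.eq

/-- the Klein four-group on the four points of `s` -/
noncomputable def κ (s : Fin 4 ↪ Fin n) : KT (alternatingGroup (Fin n)) := k4.map (vA s)

theorem κ_comm {s t : Fin 4 ↪ Fin n} (h : Dj s t) : (κ s).Comm (κ t) := by
  rintro x hx y hy
  have h1 : ∃ e, x = vA s e := by
    rcases hx with rfl | rfl | rfl
    exacts [⟨_, rfl⟩, ⟨_, rfl⟩, ⟨_, rfl⟩]
  have h2 : ∃ e, y = vA t e := by
    rcases hy with rfl | rfl | rfl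
    exacts [⟨_, rfl⟩, ⟨_, rfl⟩, ⟨_, rfl⟩]
  obtain ⟨e, rfl⟩ := h1
  obtain ⟨f, rfl⟩ := h2
  exact vA_commute h e f

theorem κ_a (s : Fin 4 ↪ Fin n) :
    (((κ s).a : alternatingGroup (Fin n)) : Perm (Fin n)) =
      swap (s 0) (s 1) * swap (s 2) (s 3) := by
  rw [κ, KT.map_a, vA_coe, k4_a, map_mul, vE_swap, vE_swap]

/-- four different points as an embedding -/
def emb4 (a b c d : Fin n) (h1 : a ≠ b) (h2 : a ≠ c) (h3 : a ≠ d) (h4 : b ≠ c) (h5 : b ≠ d)
    (h6 : c ≠ d) : Fin 4 ↪ Fin n where
  toFun := ![a, b, c, d]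
  inj' := by
    rw [← List.nodup_ofFn]
    show List.Nodup [a, b, c, d]
    simp [h1, h2, h3, h4, h5, h6]

/-- **Fixed vectors of small representations.** -/
theorem fixed_vector {V : Type*} [AddCommGroup V] [Module ℝ V] [FiniteDimensional ℝ V]
    (ρ : alternatingGroup (Fin n) →* Module.End ℝ V) {U : Submodule ℝ V} (hU : U ≠ ⊥)
    (hUs : ∀ g, ∀ u ∈ U, ρ g u ∈ U) (hn : ∀ j, 2 ^ j ≤ finrank ℝ U → 4 * j + 5 ≤ n) :
    ∃ (j : ℕ) (K : Finset (Fin n)), 2 ^ j ≤ finrank ℝ U ∧ K.card ≤ 4 * j ∧
      ∃ v ∈ U, v ≠ 0 ∧ ∀ h : alternatingGroup (Fin n),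
        (∀ a ∈ K, (h : Perm (Fin n)) a = a) → ρ h v = v := by
  classical
  obtain ⟨J, hJ, v, hv, hv0, hfix⟩ := exists_system ρ (κ (n := n)) Dj
    (fun s h => h 0 0 rfl) (fun s t h i j => (h j i).symm) (fun s t h => κ_comm h) hU hUs
  let K : Finset (Fin n) := J.biUnion fun s => Finset.univ.map s
  have hK : K.card ≤ 4 * J.card := by
    refine (Finset.card_biUnion_le).trans ?_
    rw [Finset.sum_congr rfl fun s _ => by rw [Finset.card_map, Finset.card_univ, Fintype.card_fin],
      Finset.sum_const, smul_eq_mul, mul_comm]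
  refine ⟨J.card, K, hJ, hK, v, hv, hv0, ?_⟩
  let X : Finset (Fin n) := Kᶜ
  have hX : 5 ≤ X.card := by
    rw [Finset.card_compl, Fintype.card_fin]
    have := hn _ hJ
    omega
  let L : Subgroup (alternatingGroup (Fin n)) :=
    { carrier := {h | ρ h v = v}
      mul_mem' := by
        intro a b ha hb
        show ρ (a * b) v = v
        have ha' : ρ a v = v := ha
        have hb' : ρ b v = v := hb
        rw [act_mul, hb', ha']
      one_mem' := act_one ρ v
      inv_mem' := by
        intro a ha
        show ρ a⁻¹ v = v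
        have ha' : ρ a v = v := ha
        conv_lhs => rw [← ha']
        rw [← act_mul, inv_mul_cancel, act_one] }
  have hdt : ∀ s : Fin 4 ↪ Fin n, (∀ i, s i ∈ X) → (κ s).a ∈ L := by
    intro s hs
    refine hfix s fun t ht i j hij => ?_
    have h1 := hs i
    rw [Finset.mem_compl] at h1
    apply h1
    rw [Finset.mem_biUnion]
    exact ⟨t, ht, by rw [hij]; simp⟩
  have hthree : ∀ g : alternatingGroup X, (g : Perm X).IsThreeCycle →
      alternatingGroup.ofSubtype X g ∈ L := by
    intro g hg3
    obtain ⟨a, ha⟩ := hg3.isCycle.nonempty_support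
    have h_eq := hg3.eq_swap_mul_swap_iff_mem_support.mpr ha
    have h_nodup := hg3.nodup_iff_mem_support.mpr ha
    have h_support := hg3.support_eq_iff_mem_support.mpr ha
    have hcard : 1 < (g : Perm X).supportᶜ.card := by
      rw [Finset.card_compl, hg3.card_support, Fintype.card_coe]
      omega
    obtain ⟨b, c, hb, hc, hbc⟩ := Finset.one_lt_card_iff.mp hcard
    rw [h_support, Finset.mem_compl] at hb hc
    simp only [Finset.mem_insert, Finset.mem_singleton, not_or] at hb hc
    simp only [List.nodup_cons, List.mem_cons, List.not_mem_nil, or_false, not_or,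
      List.nodup_nil, and_true, not_false_eq_true] at h_nodup
    obtain ⟨⟨h1, h2⟩, h3⟩ := h_nodup
    set p := (g : Perm X) a with hp
    set q := (g : Perm X) p with hq
    have hne : ∀ {x y : X}, x ≠ y → (x : Fin n) ≠ y := fun h h' => h (Subtype.ext h')
    let s := emb4 (a : Fin n) p b c (hne h1) (hne (Ne.symm hb.1)) (hne (Ne.symm hc.1))
      (hne (Ne.symm hb.2.1)) (hne (Ne.symm hc.2.1)) (hne hbc)
    let t := emb4 (b : Fin n) c p q (hne hbc) (hne hb.2.1) (hne hb.2.2) (hne hc.2.1)
      (hne hc.2.2) (hne h3)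
    have hs : ∀ i, s i ∈ X := by
      intro i
      fin_cases i
      exacts [a.2, p.2, b.2, c.2]
    have ht : ∀ i, t i ∈ X := by
      intro i
      fin_cases i
      exacts [b.2, c.2, p.2, q.2]
    have hmul : alternatingGroup.ofSubtype X g = (κ s).a * (κ t).a := by
      apply Subtype.ext
      rw [alternatingGroup.coe_ofSubtype, h_eq, Subgroup.coe_mul, κ_a, κ_a, map_mul,
        ofSubtype_swap_eq, ofSubtype_swap_eq]
      show swap (a : Fin n) p * swap (p : Fin n) q =
        swap (a : Fin n) p * swap (b : Fin n) c * (swap (b : Fin n) c * swap (p : Fin n) q)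
      rw [mul_assoc, ← mul_assoc (swap (b : Fin n) c), swap_mul_self, one_mul]
    rw [hmul]
    exact L.mul_mem (hdt s hs) (hdt t ht)
  intro h hh
  have h1 : h ∈ (alternatingGroup.ofSubtype X).range := by
    rw [alternatingGroup.mem_range_ofSubtype_iff]
    intro x hx
    rw [Finset.mem_compl]
    intro hxK
    rw [Perm.mem_support] at hx
    exact hx (hh x hxK)
  obtain ⟨g, rfl⟩ := h1
  have h2 : Subgroup.closure {g : alternatingGroup X | (g : Perm X).IsThreeCycle} ≤
      L.comap (alternatingGroup.ofSubtype X) := by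
    rw [Subgroup.closure_le]
    intro g hg
    exact hthree g hg
  rw [alternatingGroup.closure_isThreeCycles_eq_top] at h2
  exact h2 (Subgroup.mem_top g)

end Pool.Agent.Q294.AR
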