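import Pool.Agent.Q294.AR.Alt
import Pool.Agent.H14R2.RC.Defs

/-!
# From functions of low level to small representations
-/

set_option autoImplicit false

namespace Pool.Agent.Q294.AR

open Module Equiv Equiv.Perm RC14
open scoped InnerProductSpace

set_option linter.unusedSectionVars false
set_option linter.unusedVariables false

variable {n k : ℕ} {V : Type*} [NormedAddCommGroup V] [InnerProductSpace ℝ V]
  [FiniteDimensional ℝ V]

/-- the averaging operator -/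
noncomputable def avg (ρ : Alt n →* (V ≃ₗᵢ[ℝ] V)) (x : Fin k → Alt n) (v : V) : V :=
  (1 / (2 * k) : ℝ) • ∑ i, (ρ (x i) v + ρ (x i)⁻¹ v)

/-- the representation by linear maps -/
def lin (ρ : Alt n →* (V ≃ₗᵢ[ℝ] V)) : Alt n →* Module.End ℝ V where
  toFun g := ((ρ g).toLinearEquiv : V →ₗ[ℝ] V)
  map_one' := by ext v; simp
  map_mul' g h := by ext v; simp

theorem lin_apply (ρ : Alt n →* (V ≃ₗᵢ[ℝ] V)) (g : Alt n) (v : V) : lin ρ g v = ρ g v := rfl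

theorem r_mul (ρ : Alt n →* (V ≃ₗᵢ[ℝ] V)) (g h : Alt n) (v : V) : ρ (g * h) v = ρ g (ρ h v) := by
  rw [map_mul]; rfl

theorem r_one (ρ : Alt n →* (V ≃ₗᵢ[ℝ] V)) (v : V) : ρ 1 v = v := by rw [map_one]; rfl

theorem r_inner (ρ : Alt n →* (V ≃ₗᵢ[ℝ] V)) (g : Alt n) (v w : V) :
    ⟪ρ g v, w⟫_ℝ = ⟪v, ρ g⁻¹ w⟫_ℝ := by
  rw [← (ρ g⁻¹).inner_map_map (ρ g v) w, ← r_mul, inv_mul_cancel, r_one]

theorem avg_mem (ρ : Alt n →* (V ≃ₗᵢ[ℝ] V)) (x : Fin k → Alt n) {U : Submodule ℝ V}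
    (hU : ∀ g, ∀ u ∈ U, ρ g u ∈ U) : ∀ u ∈ U, avg ρ x u ∈ U := fun u hu =>
  U.smul_mem _ (U.sum_mem fun i _ => U.add_mem (hU _ _ hu) (hU _ _ hu))

/-- the operator `∑_g ρ(g)⁻¹ w w^* ρ(g)` -/
noncomputable def TT (ρ : Alt n →* (V ≃ₗᵢ[ℝ] V)) (w : V) : V →ₗ[ℝ] V where
  toFun v := ∑ g : Alt n, ⟪ρ g v, w⟫_ℝ • ρ g⁻¹ w
  map_add' a b := by
    rw [← Finset.sum_add_distrib]
    refine Finset.sum_congr rfl fun g _ => ?_
    rw [map_add, inner_add_left, add_smul]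
  map_smul' c a := by
    rw [RingHom.id_apply, Finset.smul_sum]
    refine Finset.sum_congr rfl fun g _ => ?_
    rw [map_smul, real_inner_smul_left, mul_smul]

theorem TT_apply (ρ : Alt n →* (V ≃ₗᵢ[ℝ] V)) (w v : V) :
    TT ρ w v = ∑ g : Alt n, ⟪ρ g v, w⟫_ℝ • ρ g⁻¹ w := rfl

theorem TT_inner (ρ : Alt n →* (V ≃ₗᵢ[ℝ] V)) (w v v' : V) :
    ⟪TT ρ w v, v'⟫_ℝ = ∑ g : Alt n, ⟪ρ g v, w⟫_ℝ * ⟪ρ g v', w⟫_ℝ := by
  rw [TT_apply, sum_inner]
  refine Finset.sum_congr rfl fun g _ => ?_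
  rw [real_inner_smul_left, r_inner ρ g⁻¹, inv_inv, real_inner_comm (ρ g v') w]

theorem TT_symm (ρ : Alt n →* (V ≃ₗᵢ[ℝ] V)) (w : V) : (TT ρ w).IsSymmetric := by
  intro v v'
  rw [TT_inner, real_inner_comm, TT_inner]
  exact Finset.sum_congr rfl fun g _ => mul_comm _ _

theorem TT_comm (ρ : Alt n →* (V ≃ₗᵢ[ℝ] V)) (w v : V) (h : Alt n) :
    TT ρ w (ρ h v) = ρ h (TT ρ w v) := by
  rw [TT_apply, TT_apply, map_sum]
  refine Fintype.sum_equiv (Equiv.mulRight h) _ _ fun g => ?_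
  rw [Equiv.coe_mulRight, map_smul, ← r_mul, ← r_mul, mul_inv_rev, mul_inv_cancel_left]

theorem TT_mem (ρ : Alt n →* (V ≃ₗᵢ[ℝ] V)) {U : Submodule ℝ V} (hU : ∀ g, ∀ u ∈ U, ρ g u ∈ U)
    {w : V} (hw : w ∈ U) (v : V) : TT ρ w v ∈ U :=
  U.sum_mem fun g _ => U.smul_mem _ (hU _ _ hw)

/-- the gap on the functions of low level gives the gap on small representations -/
theorem gap_reps {m : ℕ} (ρ : Alt n →* (V ≃ₗᵢ[ℝ] V)) (x : Fin k → Alt n) (ε : ℝ)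
    (hgap : ∀ f ∈ lowLevel n m, ∑ g, f g = 0 → ∑ g, f g * walk x f g ≤ (1 - ε) * ∑ g, f g ^ 2) :
    ∀ (N : ℕ) (U : Submodule ℝ V), finrank ℝ U = N → (∀ g, ∀ u ∈ U, ρ g u ∈ U) →
      (∀ u ∈ U, (∀ g, ρ g u = u) → u = 0) → (∀ j, 2 ^ j ≤ N → 4 * j + 5 ≤ n ∧ 4 * j ≤ m) →
      ∀ u ∈ U, ⟪u, avg ρ x u⟫_ℝ ≤ (1 - ε) * ‖u‖ ^ 2 := by
  intro N
  induction N using Nat.strong_induction_on with
  | _ N ih =>
    intro U hN hU hinv hj
    by_cases hU0 : U = ⊥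
    · intro u hu
      rw [hU0, Submodule.mem_bot] at hu
      rw [hu]
      simp
    let S : Set (Submodule ℝ V) := {W | W ≠ ⊥ ∧ W ≤ U ∧ ∀ g, ∀ u ∈ W, ρ g u ∈ W}
    obtain ⟨U₁, ⟨h1, h2, h3⟩, hmin⟩ := WellFounded.has_min
      (wellFounded_lt (α := Submodule ℝ V)) S ⟨U, hU0, le_refl _, hU⟩
    have hle : finrank ℝ U₁ ≤ N := hN ▸ Submodule.finrank_mono h2
    obtain ⟨j, K, hj1, hj2, w, hw, hw0, hwK⟩ := fixed_vector (lin ρ) h1 h3
      (fun j hj' => (hj j (hj'.trans hle)).1)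
    have hKm : K.card ≤ m := hj2.trans (hj j (hj1.trans hle)).2
    -- the eigenvalue
    have hnt : Nontrivial V := ⟨⟨w, 0, hw0⟩⟩
    have hpos : 0 < ⟪TT ρ w w, w⟫_ℝ := by
      rw [TT_inner]
      refine Finset.sum_pos' (fun g _ => mul_self_nonneg _) ⟨1, Finset.mem_univ _, ?_⟩
      rw [r_one]
      exact mul_pos (real_inner_self_pos.2 hw0) (real_inner_self_pos.2 hw0)
    obtain ⟨μ, hμ, hμe⟩ : ∃ μ : ℝ, 0 < μ ∧ Module.End.HasEigenvalue (TT ρ w) μ := by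
      have h4 := (TT_symm ρ w).hasEigenvalue_iSup_of_finiteDimensional
      refine ⟨_, ?_, h4⟩
      let T' : V →L[ℝ] V := LinearMap.toContinuousLinearMap (TT ρ w)
      have hb : ∀ y : {y : V // y ≠ 0},
          RCLike.re ⟪TT ρ w y, y⟫_ℝ / ‖(y : V)‖ ^ 2 ≤ ‖T'‖ := by
        intro y
        have hy : 0 < ‖(y : V)‖ ^ 2 := by
          have := norm_pos_iff.2 y.2
          positivity
        rw [div_le_iff₀ hy]
        have h5 : ‖TT ρ w y‖ ≤ ‖T'‖ * ‖(y : V)‖ := T'.le_opNorm y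
        calc RCLike.re ⟪TT ρ w y, y⟫_ℝ = ⟪TT ρ w y, y⟫_ℝ := rfl
          _ ≤ ‖TT ρ w y‖ * ‖(y : V)‖ := real_inner_le_norm _ _
          _ ≤ ‖T'‖ * ‖(y : V)‖ * ‖(y : V)‖ := by gcongr
          _ = ‖T'‖ * ‖(y : V)‖ ^ 2 := by ring
      have hbd : BddAbove (Set.range fun y : {y : V // y ≠ 0} =>
          RCLike.re ⟪TT ρ w y, y⟫_ℝ / ‖(y : V)‖ ^ 2) := ⟨‖T'‖, by
        rintro _ ⟨y, rfl⟩
        exact hb y⟩
      refine lt_of_lt_of_le ?_ (le_ciSup hbd ⟨w, hw0⟩)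
      have h5 : 0 < ‖w‖ ^ 2 := by
        have := norm_pos_iff.2 hw0
        positivity
      exact div_pos hpos h5
    obtain ⟨e, he⟩ := hμe.exists_hasEigenvector
    let E : Submodule ℝ V := Module.End.eigenspace (TT ρ w) μ
    have hE : ∀ v, v ∈ E ↔ TT ρ w v = μ • v := fun v => Module.End.mem_eigenspace_iff
    have hEU : E ≤ U₁ := by
      intro v hv
      rw [hE] at hv
      have h4 : v = μ⁻¹ • TT ρ w v := by
        rw [hv, smul_smul, inv_mul_cancel₀ hμ.ne', one_smul]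
      rw [h4]
      exact U₁.smul_mem _ (TT_mem ρ h3 hw v)
    have hE0 : E ≠ ⊥ := by
      intro h4
      have h5 : e ∈ E := he.1
      rw [h4, Submodule.mem_bot] at h5
      exact he.2 h5
    have hEs : ∀ g, ∀ u ∈ E, ρ g u ∈ E := by
      intro g u hu
      rw [hE] at hu ⊢
      rw [TT_comm, hu, map_smul]
    have hEq : E = U₁ := by
      by_contra h4
      exact hmin E ⟨hE0, hEU.trans h2, hEs⟩ (lt_of_le_of_ne hEU h4)
    have hU₁ : ∀ u ∈ U₁, TT ρ w u = μ • u := by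
      intro u hu
      rw [← hEq] at hu
      exact (hE u).1 hu
    have hirr : ∀ u ∈ U₁, ⟪u, avg ρ x u⟫_ℝ ≤ (1 - ε) * ‖u‖ ^ 2 := by
      intro u hu
      let f : Alt n → ℝ := fun g => ⟪ρ g u, w⟫_ℝ
      have hf : f ∈ lowLevel n m := by
        refine Submodule.subset_span ⟨K, hKm, fun h g hh => ?_⟩
        show ⟪ρ (h * g) u, w⟫_ℝ = ⟪ρ g u, w⟫_ℝ
        have h4 : ρ h⁻¹ w = w := by
          refine hwK h⁻¹ fun a ha => ?_
          have h5 : ((h⁻¹ : Alt n) : Perm (Fin n)) = (h : Perm (Fin n))⁻¹ := rfl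
          rw [h5, Perm.inv_eq_iff_eq]
          exact (hh a ha).symm
        rw [r_mul, r_inner ρ h, h4]
      have hf0 : ∑ g, f g = 0 := by
        show ∑ g : Alt n, ⟪ρ g u, w⟫_ℝ = 0
        rw [← sum_inner]
        have h4 : ∑ g : Alt n, ρ g u = 0 := by
          refine hinv _ (U.sum_mem fun g _ => hU g u (h2 hu)) fun h => ?_
          rw [map_sum]
          refine Fintype.sum_equiv (Equiv.mulLeft h) _ _ fun g => ?_
          rw [Equiv.coe_mulLeft, r_mul]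
        rw [h4, inner_zero_left]
      have hwalk : ∀ g, walk x f g = ⟪ρ g (avg ρ x u), w⟫_ℝ := by
        intro g
        show (∑ i, (⟪ρ (g * x i) u, w⟫_ℝ + ⟪ρ (g * (x i)⁻¹) u, w⟫_ℝ)) / (2 * k) = _
        rw [avg, map_smul, map_sum, real_inner_smul_left, sum_inner, div_eq_mul_one_div, mul_comm]
        congr 1
        refine Finset.sum_congr rfl fun i _ => ?_
        rw [map_add, inner_add_left, r_mul, r_mul]
      have h4 := hgap f hf hf0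
      have h5 : ∑ g, f g * walk x f g = μ * ⟪u, avg ρ x u⟫_ℝ := by
        rw [← real_inner_smul_left, ← hU₁ u hu, TT_inner]
        exact Finset.sum_congr rfl fun g _ => by rw [hwalk]
      have h6 : ∑ g, f g ^ 2 = μ * ‖u‖ ^ 2 := by
        rw [← real_inner_self_eq_norm_sq, ← real_inner_smul_left, ← hU₁ u hu, TT_inner]
        exact Finset.sum_congr rfl fun g _ => by rw [sq]
      rw [h5, h6] at h4
      have h7 : μ * ⟪u, avg ρ x u⟫_ℝ ≤ μ * ((1 - ε) * ‖u‖ ^ 2) := by linarith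
      exact le_of_mul_le_mul_left h7 hμ
    -- the complement
    let U₂ : Submodule ℝ V := U ⊓ U₁ᗮ
    have hU₂s : ∀ g, ∀ u ∈ U₂, ρ g u ∈ U₂ := by
      intro g u hu
      refine ⟨hU g u hu.1, (Submodule.mem_orthogonal _ _).2 fun v hv => ?_⟩
      rw [real_inner_comm, r_inner, real_inner_comm]
      exact (Submodule.mem_orthogonal _ _).1 hu.2 _ (h3 _ _ hv)
    have hlt : finrank ℝ U₂ < N := by
      rw [← hN]
      refine Submodule.finrank_lt_finrank_of_lt (lt_of_le_of_ne inf_le_left ?_)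
      intro h4
      have h5 : w ∈ U₂ := by rw [h4]; exact h2 hw
      have h6 := (Submodule.mem_orthogonal _ _).1 h5.2 w hw
      exact hw0 (inner_self_eq_zero.1 h6)
    have hU₂ := ih _ hlt U₂ rfl hU₂s (fun u hu => hinv u hu.1)
      (fun j hj' => hj j (hj'.trans hlt.le))
    intro u hu
    obtain ⟨u₁, hu₁, u₂, hu₂, rfl⟩ : ∃ u₁ ∈ U₁, ∃ u₂ ∈ U₂, u₁ + u₂ = u := by
      refine ⟨U₁.starProjection u, U₁.starProjection_apply_mem u, u - U₁.starProjection u,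
        ⟨U.sub_mem hu (h2 (U₁.starProjection_apply_mem u)), ?_⟩, by abel⟩
      exact U₁.sub_starProjection_mem_orthogonal u
    have h4 : avg ρ x (u₁ + u₂) = avg ρ x u₁ + avg ρ x u₂ := by
      rw [avg, avg, avg, ← smul_add, ← Finset.sum_add_distrib]
      congr 1
      refine Finset.sum_congr rfl fun i _ => ?_
      rw [map_add, map_add]
      abel
    have h5 : ⟪u₁, avg ρ x u₂⟫_ℝ = 0 :=
      (Submodule.mem_orthogonal _ _).1 (avg_mem ρ x hU₂s u₂ hu₂).2 u₁ hu₁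
    have h6 : ⟪u₂, avg ρ x u₁⟫_ℝ = 0 := by
      rw [real_inner_comm]
      exact (Submodule.mem_orthogonal _ _).1 hu₂.2 _ (avg_mem ρ x h3 u₁ hu₁)
    have h7 : ⟪u₁, u₂⟫_ℝ = 0 := (Submodule.mem_orthogonal _ _).1 hu₂.2 _ hu₁
    have h8 : ‖u₁ + u₂‖ ^ 2 = ‖u₁‖ ^ 2 + ‖u₂‖ ^ 2 := by
      rw [norm_add_sq_real, h7]
      ring
    rw [h4, inner_add_left, inner_add_right, inner_add_right, h5, h6, h8]
    have h9 := hirr u₁ hu₁
    have h10 := hU₂ u₂ hu₂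
    linarith

end Pool.Agent.Q294.AR
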