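import Mathlib

/-!
# Commuting Klein four-groups and dimensions of representations
-/

set_option autoImplicit false

namespace Pool.Agent.Q294.AR

open Module

/-- a Klein four-group `{1, a, b, a b}` together with an element `r` which permutes `a, b, a b`
cyclically -/
structure KT (G : Type*) [Group G] where
  a : G
  b : G
  r : G
  haa : a * a = 1
  hra : r * a * r⁻¹ = b
  hrb : r * b * r⁻¹ = a * b

namespace KT

variable {G : Type*} [Group G] (k : KT G)

theorem hbb : k.b * k.b = 1 := by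
  rw [← k.hra]
  calc k.r * k.a * k.r⁻¹ * (k.r * k.a * k.r⁻¹) = k.r * (k.a * k.a) * k.r⁻¹ := by group
    _ = 1 := by rw [k.haa]; group

theorem hcc : (k.a * k.b) * (k.a * k.b) = 1 := by
  rw [← k.hrb]
  calc k.r * k.b * k.r⁻¹ * (k.r * k.b * k.r⁻¹) = k.r * (k.b * k.b) * k.r⁻¹ := by group
    _ = 1 := by rw [k.hbb]; group

theorem hba : k.b * k.a = k.a * k.b := by
  have h1 := k.hcc
  have h2 := k.haa
  have h3 := k.hbb
  calc k.b * k.a = (k.a * k.a) * (k.b * k.a) * (k.b * k.b) := by rw [h2, h3]; group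
    _ = k.a * ((k.a * k.b) * (k.a * k.b)) * k.b := by group
    _ = k.a * k.b := by rw [h1]; group

theorem hrc : k.r * (k.a * k.b) * k.r⁻¹ = k.a := by
  calc k.r * (k.a * k.b) * k.r⁻¹ = (k.r * k.a * k.r⁻¹) * (k.r * k.b * k.r⁻¹) := by group
    _ = k.b * k.a * k.b := by rw [k.hra, k.hrb]; group
    _ = k.a * (k.b * k.b) := by rw [k.hba]; group
    _ = k.a := by rw [k.hbb, mul_one]

/-- all elements of `k` commute with all elements of `l` -/
def Comm (k l : KT G) : Prop :=
  ∀ x ∈ ({k.a, k.b, k.r} : Set G), ∀ y ∈ ({l.a, l.b, l.r} : Set G), Commute x y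

theorem Comm.symm {k l : KT G} (h : Comm k l) : Comm l k := fun x hx y hy => (h y hy x hx).symm

end KT

variable {G V ι : Type*} [Group G] [AddCommGroup V] [Module ℝ V] (ρ : G →* Module.End ℝ V)

theorem act_mul (g h : G) (v : V) : ρ (g * h) v = ρ g (ρ h v) := by rw [map_mul]; rfl

theorem act_one (v : V) : ρ 1 v = v := by rw [map_one]; rfl

theorem act_comm {g h : G} (hgh : Commute g h) (v : V) : ρ g (ρ h v) = ρ h (ρ g v) := by
  rw [← act_mul, hgh.eq, act_mul]

theorem zero_of_neg {w : V} (h : w = -w) : w = 0 := by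
  have h1 : (2 : ℝ) • w = 0 := by
    rw [two_smul]
    nth_rewrite 1 [h]
    exact neg_add_cancel w
  exact (smul_eq_zero.1 h1).resolve_left (by norm_num)

/-- the sum over the Klein four-group -/
def PK (k : KT G) : Module.End ℝ V := 1 + ρ k.a + ρ k.b + ρ (k.a * k.b)

theorem PK_apply (k : KT G) (v : V) :
    PK ρ k v = v + ρ k.a v + ρ k.b v + ρ (k.a * k.b) v := rfl

theorem a_PK (k : KT G) (v : V) : ρ k.a (PK ρ k v) = PK ρ k v := by
  simp only [PK_apply, map_add, ← act_mul]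
  rw [k.haa, act_one, ← mul_assoc, k.haa, one_mul]
  abel

theorem b_PK (k : KT G) (v : V) : ρ k.b (PK ρ k v) = PK ρ k v := by
  simp only [PK_apply, map_add, ← act_mul]
  rw [k.hba, k.hbb, act_one]
  have : k.b * (k.a * k.b) = k.a := by
    rw [← mul_assoc, k.hba, mul_assoc, k.hbb, mul_one]
  rw [this]
  abel

theorem PK_a (k : KT G) (v : V) : PK ρ k (ρ k.a v) = PK ρ k v := by
  simp only [PK_apply, ← act_mul]
  have h1 : k.a * k.b * k.a = k.b := by
    rw [mul_assoc, k.hba, ← mul_assoc, k.haa, one_mul]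
  rw [k.haa, act_one, k.hba, h1]
  abel

theorem PK_r (k : KT G) (v : V) : PK ρ k (ρ k.r v) = ρ k.r (PK ρ k v) := by
  have h1 : k.b * k.r = k.r * k.a := by rw [← k.hra]; group
  have h2 : k.a * k.b * k.r = k.r * k.b := by rw [← k.hrb]; group
  have h3 : k.a * k.r = k.r * (k.a * k.b) := by
    conv_lhs => rw [← k.hrc]
    group
  simp only [PK_apply, map_add, ← act_mul]
  rw [h1, h2, h3]
  abel

theorem PK_PK (k : KT G) (v : V) : PK ρ k (PK ρ k v) = (4 : ℝ) • PK ρ k v := by
  conv_lhs => rw [PK_apply]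
  rw [act_mul, b_PK, a_PK]
  rw [show (4 : ℝ) = 1 + 1 + 1 + 1 by norm_num]
  simp only [add_smul, one_smul]

theorem PK_comm {k : KT G} {y : G} (h : ∀ x ∈ ({k.a, k.b, k.r} : Set G), Commute x y) (v : V) :
    PK ρ k (ρ y v) = ρ y (PK ρ k v) := by
  have ha := h k.a (by simp)
  have hb := h k.b (by simp)
  simp only [PK_apply, map_add]
  rw [act_comm ρ ha, act_comm ρ hb, act_comm ρ (ha.mul_left hb)]

theorem PK_PK_comm {k l : KT G} (h : k.Comm l) (v : V) :
    PK ρ k (PK ρ l v) = PK ρ l (PK ρ k v) := by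
  conv_lhs => rw [PK_apply ρ l]
  conv_rhs => rw [PK_apply ρ l]
  rw [map_add, map_add, map_add, PK_comm ρ (fun x hx => h x hx l.a (by simp)),
    PK_comm ρ (fun x hx => h x hx l.b (by simp)), act_mul, act_mul,
    PK_comm ρ (fun x hx => h x hx l.a (by simp)), PK_comm ρ (fun x hx => h x hx l.b (by simp))]

/-- `W` is stable under the elements of `k` -/
def KStab (k : KT G) (W : Submodule ℝ V) : Prop :=
  ∀ w ∈ W, ρ k.a w ∈ W ∧ ρ k.r w ∈ W ∧ ρ k.r⁻¹ w ∈ W

/-- **Dimension bound.** -/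
theorem dim_bound [FiniteDimensional ℝ V] [DecidableEq ι] (κ : ι → KT G) (J : Finset ι) :
    (∀ s ∈ J, ∀ t ∈ J, s ≠ t → (κ s).Comm (κ t)) →
    ∀ W : Submodule ℝ V, W ≠ ⊥ → (∀ s ∈ J, KStab ρ (κ s) W) →
      (∀ s ∈ J, ∀ w ∈ W, ρ (κ s).a w = w → ρ (κ s).b w = w → w = 0) →
      2 ^ J.card ≤ finrank ℝ W := by
  induction J using Finset.induction_on with
  | empty =>
    intro _ W hW _ _
    rw [Finset.card_empty, pow_zero]
    have : 0 < finrank ℝ W := by
      rw [Nat.pos_iff_ne_zero]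
      intro h
      exact hW (Submodule.finrank_eq_zero.1 h)
    exact this
  | insert s J hs ih =>
    intro hcomm W hW hst hfix
    let k := κ s
    have hkst := hst s (Finset.mem_insert_self _ _)
    have hkfix := hfix s (Finset.mem_insert_self _ _)
    have hb : ∀ w, ρ k.b w = ρ k.r (ρ k.a (ρ k.r⁻¹ w)) := by
      intro w
      rw [← act_mul, ← act_mul, ← k.hra, mul_assoc]
    have hc : ∀ w, ρ (k.a * k.b) w = ρ k.r (ρ k.b (ρ k.r⁻¹ w)) := by
      intro w
      rw [← act_mul, ← act_mul, ← k.hrb, mul_assoc]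
    have hrr : ∀ w, ρ k.r (ρ k.r⁻¹ w) = w := by
      intro w
      rw [← act_mul, mul_inv_cancel, act_one]
    have haa : ∀ w, ρ k.a (ρ k.a w) = w := by
      intro w
      rw [← act_mul, k.haa, act_one]
    let Wp : Submodule ℝ V := W ⊓ LinearMap.ker (ρ k.a - 1)
    let Wm : Submodule ℝ V := W ⊓ LinearMap.ker (ρ k.a + 1)
    have hWp : ∀ w, w ∈ Wp ↔ w ∈ W ∧ ρ k.a w = w := by
      intro w
      rw [Submodule.mem_inf, LinearMap.mem_ker, LinearMap.sub_apply, Module.End.one_apply,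
        sub_eq_zero]
    have hWm : ∀ w, w ∈ Wm ↔ w ∈ W ∧ ρ k.a w = -w := by
      intro w
      rw [Submodule.mem_inf, LinearMap.mem_ker, LinearMap.add_apply, Module.End.one_apply,
        add_eq_zero_iff_eq_neg]
    have hstab : ∀ t ∈ J, ∀ y ∈ ({(κ t).a, (κ t).b, (κ t).r} : Set G), ∀ z, z = y ∨ z = y⁻¹ →
        ∀ w, ρ k.a (ρ z w) = ρ z (ρ k.a w) := by
      intro t ht y hy z hz w
      have h1 : Commute k.a y := hcomm s (Finset.mem_insert_self _ _) t
        (Finset.mem_insert_of_mem ht) (by rintro rfl; exact hs ht) k.a (by simp [k]) y hy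
      rcases hz with rfl | rfl
      · exact act_comm ρ h1 w
      · exact act_comm ρ h1.inv_right w
    have hp : Wp ≠ ⊥ := by
      intro h0
      have hall : ∀ w ∈ W, ρ k.a w = -w := by
        intro w hw
        have h1 : w + ρ k.a w ∈ Wp := by
          rw [hWp]
          refine ⟨W.add_mem hw (hkst w hw).1, ?_⟩
          rw [map_add, haa, add_comm]
        rw [h0, Submodule.mem_bot] at h1
        exact (neg_eq_of_add_eq_zero_right h1).symm
      obtain ⟨w, hw, hw0⟩ := Submodule.exists_mem_ne_zero_of_ne_bot hW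
      have hallb : ∀ w ∈ W, ρ k.b w = -w := by
        intro w hw
        rw [hb, hall _ (hkst w hw).2.2, map_neg, hrr]
      have h1 : ρ (k.a * k.b) w = w := by
        rw [act_mul, hallb w hw, map_neg, hall w hw, neg_neg]
      have h2 : ρ (k.a * k.b) w = -w := by
        rw [hc, hallb _ (hkst w hw).2.2, map_neg, hrr]
      rw [h1] at h2
      exact hw0 (zero_of_neg h2)
    have hm : Wm ≠ ⊥ := by
      intro h0
      have hall : ∀ w ∈ W, ρ k.a w = w := by
        intro w hw
        have h1 : w - ρ k.a w ∈ Wm := by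
          rw [hWm]
          refine ⟨W.sub_mem hw (hkst w hw).1, ?_⟩
          rw [map_sub, haa, neg_sub]
        rw [h0, Submodule.mem_bot, sub_eq_zero] at h1
        exact h1.symm
      obtain ⟨w, hw, hw0⟩ := Submodule.exists_mem_ne_zero_of_ne_bot hW
      refine hw0 (hkfix w hw (hall w hw) ?_)
      show ρ k.b w = w
      rw [hb, hall _ (hkst w hw).2.2, hrr]
    have ih' := ih (fun a ha b hb => hcomm a (Finset.mem_insert_of_mem ha) b
      (Finset.mem_insert_of_mem hb))
    have h1 : 2 ^ J.card ≤ finrank ℝ Wp := by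
      refine ih' Wp hp ?_ ?_
      · intro t ht w hw
        rw [hWp] at hw
        have hst' := hst t (Finset.mem_insert_of_mem ht) w hw.1
        refine ⟨(hWp _).2 ⟨hst'.1, ?_⟩, (hWp _).2 ⟨hst'.2.1, ?_⟩, (hWp _).2 ⟨hst'.2.2, ?_⟩⟩
        · rw [hstab t ht (κ t).a (by simp) _ (Or.inl rfl), hw.2]
        · rw [hstab t ht (κ t).r (by simp) _ (Or.inl rfl), hw.2]
        · rw [hstab t ht (κ t).r (by simp) _ (Or.inr rfl), hw.2]
      · intro t ht w hw
        exact hfix t (Finset.mem_insert_of_mem ht) w ((hWp w).1 hw).1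
    have h2 : 2 ^ J.card ≤ finrank ℝ Wm := by
      refine ih' Wm hm ?_ ?_
      · intro t ht w hw
        rw [hWm] at hw
        have hst' := hst t (Finset.mem_insert_of_mem ht) w hw.1
        refine ⟨(hWm _).2 ⟨hst'.1, ?_⟩, (hWm _).2 ⟨hst'.2.1, ?_⟩, (hWm _).2 ⟨hst'.2.2, ?_⟩⟩
        · rw [hstab t ht (κ t).a (by simp) _ (Or.inl rfl), hw.2, map_neg]
        · rw [hstab t ht (κ t).r (by simp) _ (Or.inl rfl), hw.2, map_neg]
        · rw [hstab t ht (κ t).r (by simp) _ (Or.inr rfl), hw.2, map_neg]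
      · intro t ht w hw
        exact hfix t (Finset.mem_insert_of_mem ht) w ((hWm w).1 hw).1
    have h3 : Wp ⊓ Wm = ⊥ := by
      rw [eq_bot_iff]
      intro w hw
      have h4 := ((hWp w).1 hw.1).2
      rw [((hWm w).1 hw.2).2] at h4
      rw [Submodule.mem_bot]
      exact zero_of_neg h4.symm
    have h4 := Submodule.finrank_sup_add_finrank_inf_eq Wp Wm
    rw [h3, finrank_bot, add_zero] at h4
    have h5 : finrank ℝ (Wp ⊔ Wm : Submodule ℝ V) ≤ finrank ℝ W :=
      Submodule.finrank_mono (sup_le inf_le_left inf_le_left)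
    rw [Finset.card_insert_of_notMem hs, pow_succ]
    omega

/-- the vectors of `U` killed by the sums over the Klein four-groups in `J` -/
def WJ (κ : ι → KT G) (U : Submodule ℝ V) (J : Finset ι) : Submodule ℝ V :=
  { carrier := {v | v ∈ U ∧ ∀ s ∈ J, PK ρ (κ s) v = 0}
    add_mem' := fun ha hb => ⟨U.add_mem ha.1 hb.1, fun s hs => by
      rw [map_add, ha.2 s hs, hb.2 s hs, add_zero]⟩
    zero_mem' := ⟨U.zero_mem, fun s _ => map_zero _⟩
    smul_mem' := fun c a ha => ⟨U.smul_mem c ha.1, fun s hs => by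
      rw [map_smul, ha.2 s hs, smul_zero]⟩ }

/-- **Maximal systems of Klein four-groups.** -/
theorem exists_system [FiniteDimensional ℝ V] [DecidableEq ι] [Finite ι] (κ : ι → KT G)
    (disj : ι → ι → Prop) (hirr : ∀ s, ¬ disj s s) (hsymm : ∀ s t, disj s t → disj t s)
    (hcomm : ∀ s t, disj s t → (κ s).Comm (κ t))
    {U : Submodule ℝ V} (hU : U ≠ ⊥) (hUs : ∀ g, ∀ u ∈ U, ρ g u ∈ U) :
    ∃ J : Finset ι, 2 ^ J.card ≤ finrank ℝ U ∧ ∃ v ∈ U, v ≠ 0 ∧
      ∀ s, (∀ t ∈ J, disj s t) → ρ (κ s).a v = v := by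
  classical
  have := Fintype.ofFinite ι
  let S : Finset (Finset ι) := Finset.univ.filter fun J =>
    (∀ s ∈ J, ∀ t ∈ J, s ≠ t → disj s t) ∧ WJ ρ κ U J ≠ ⊥
  have hS : S.Nonempty := by
    refine ⟨∅, Finset.mem_filter.2 ⟨Finset.mem_univ _, by simp, ?_⟩⟩
    obtain ⟨u, hu, hu0⟩ := Submodule.exists_mem_ne_zero_of_ne_bot hU
    intro h
    have h1 : u ∈ WJ ρ κ U ∅ := ⟨hu, by simp⟩
    rw [h, Submodule.mem_bot] at h1
    exact hu0 h1
  obtain ⟨J, hJ, hmax⟩ := S.exists_max_image Finset.card hS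
  obtain ⟨-, hJ1, hJ2⟩ := Finset.mem_filter.1 hJ
  have hPfix : ∀ s ∈ J, ∀ y ∈ ({(κ s).a, (κ s).r} : Set G), ∀ z, z = y ∨ z = y⁻¹ →
      ∀ w ∈ WJ ρ κ U J, ρ z w ∈ WJ ρ κ U J := by
    intro s hs y hy z hz w hw
    refine ⟨hUs z w hw.1, fun t ht => ?_⟩
    by_cases hst : t = s
    · subst hst
      have h0 := hw.2 t ht
      rcases hy with rfl | hy
      · have h1 : z = (κ t).a := by
          rcases hz with rfl | rfl
          · rfl
          · exact inv_eq_of_mul_eq_one_left (κ t).haa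
        rw [h1, PK_a, h0]
      · rw [Set.mem_singleton_iff] at hy
        subst hy
        rcases hz with rfl | rfl
        · rw [PK_r, h0, map_zero]
        · have h1 : ρ (κ t).r (PK ρ (κ t) (ρ (κ t).r⁻¹ w)) = 0 := by
            rw [← PK_r, ← act_mul, mul_inv_cancel, act_one, h0]
          have h2 : ρ (κ t).r⁻¹ (ρ (κ t).r (PK ρ (κ t) (ρ (κ t).r⁻¹ w))) = 0 := by
            rw [h1, map_zero]
          rwa [← act_mul, inv_mul_cancel, act_one] at h2
    · have hc := hcomm t s (hJ1 t ht s hs hst)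
      have hy' : y ∈ ({(κ s).a, (κ s).b, (κ s).r} : Set G) := by
        rcases hy with rfl | hy
        · simp
        · rw [Set.mem_singleton_iff] at hy
          subst hy
          simp
      rw [PK_comm, hw.2 t ht, map_zero]
      intro x hx
      rcases hz with rfl | rfl
      · exact hc x hx _ hy'
      · exact (hc x hx _ hy').inv_right
  have hdim : 2 ^ J.card ≤ finrank ℝ (WJ ρ κ U J) := by
    refine dim_bound ρ κ J (fun s hs t ht hst => hcomm s t (hJ1 s hs t ht hst)) _ hJ2 ?_ ?_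
    · intro s hs w hw
      exact ⟨hPfix s hs (κ s).a (by simp) _ (Or.inl rfl) w hw,
        hPfix s hs (κ s).r (by simp) _ (Or.inl rfl) w hw,
        hPfix s hs (κ s).r (by simp) _ (Or.inr rfl) w hw⟩
    · intro s hs w hw ha hb
      have h0 := hw.2 s hs
      rw [PK_apply, act_mul, hb, ha] at h0
      have h1 : (4 : ℝ) • w = 0 := by
        rw [show (4 : ℝ) = 1 + 1 + 1 + 1 by norm_num]
        simpa only [add_smul, one_smul] using h0
      exact (smul_eq_zero.1 h1).resolve_left (by norm_num)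
  refine ⟨J, hdim.trans (Submodule.finrank_mono fun w hw => hw.1), ?_⟩
  obtain ⟨v, hv, hv0⟩ := Submodule.exists_mem_ne_zero_of_ne_bot hJ2
  refine ⟨v, hv.1, hv0, fun s hs => ?_⟩
  have hsJ : s ∉ J := fun h => hirr s (hs s h)
  have h1 : WJ ρ κ U (insert s J) = ⊥ := by
    by_contra h1
    have h2 : insert s J ∈ S := by
      refine Finset.mem_filter.2 ⟨Finset.mem_univ _, ?_, h1⟩
      intro a ha b hb hab
      rcases Finset.mem_insert.1 ha with ha' | ha'
      · rcases Finset.mem_insert.1 hb with hb' | hb'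
        · exact absurd (ha'.trans hb'.symm) hab
        · rw [ha']
          exact hs b hb'
      · rcases Finset.mem_insert.1 hb with hb' | hb'
        · rw [hb']
          exact hsymm _ _ (hs a ha')
        · exact hJ1 a ha' b hb' hab
    have h3 := hmax _ h2
    rw [Finset.card_insert_of_notMem hsJ] at h3
    omega
  have h2 : v - (4 : ℝ)⁻¹ • PK ρ (κ s) v ∈ WJ ρ κ U (insert s J) := by
    have hPU : PK ρ (κ s) v ∈ U := by
      rw [PK_apply]
      exact U.add_mem (U.add_mem (U.add_mem hv.1 (hUs _ _ hv.1)) (hUs _ _ hv.1)) (hUs _ _ hv.1)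
    refine ⟨U.sub_mem hv.1 (U.smul_mem _ hPU), fun t ht => ?_⟩
    rcases Finset.mem_insert.1 ht with rfl | ht
    · rw [map_sub, map_smul, PK_PK, smul_smul, inv_mul_cancel₀ (by norm_num), one_smul, sub_self]
    · rw [map_sub, map_smul, PK_PK_comm ρ (hcomm s t (hs t ht)).symm, hv.2 t ht, map_zero,
        smul_zero, sub_zero]
  rw [h1, Submodule.mem_bot, sub_eq_zero] at h2
  rw [h2, map_smul, a_PK]

end Pool.Agent.Q294.AR
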